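import Mathlib
import Pool.Agent.V11131.ParTree

set_option autoImplicit false

namespace Pool.Agent.Results.MP_3f72ec_co.NotMonotone

open Finset Pool.Agent.V11131.ParTree

/-- The line `a x + b y = c` in the plane. -/
def line (a b c : ℝ) : Set (ℝ × ℝ) := {p | a * p.1 + b * p.2 = c}

/-- The line `l` stabs the closed segment from `p` to `q`: they meet in exactly one point, which
lies in the relative interior of the segment. -/
def Stabs (l : Set (ℝ × ℝ)) (p q : ℝ × ℝ) : Prop :=
  ∃ z, l ∩ segment ℝ p q = {z} ∧ z ∈ openSegment ℝ p q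

/-- The line `l` stabs the segment between the ends of the edge `e`. -/
def StabsEdge {S : Set (ℝ × ℝ)} (l : Set (ℝ × ℝ)) (e : Sym2 S) : Prop :=
  ∃ p q : S, e = s(p, q) ∧ Stabs l p q

/-- The stabbing number of a graph on the configuration `S`: the largest number of its edges
stabbed by a line. -/
noncomputable def stabNum {S : Set (ℝ × ℝ)} (T : SimpleGraph S) : ℕ :=
  sSup {m | ∃ a b c : ℝ, (a ≠ 0 ∨ b ≠ 0) ∧
    m = {e ∈ T.edgeSet | StabsEdge (line a b c) e}.ncard}

/-- The tree stabbing number of the configuration `S`: the smallest stabbing number of a tree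
with vertex set `S`. -/
noncomputable def treeStab (S : Set (ℝ × ℝ)) : ℕ :=
  sInf {k | ∃ T : SimpleGraph S, T.IsTree ∧ stabNum T = k}

/-- The affine function of a line. -/
def F (a b c : ℝ) (p : ℝ × ℝ) : ℝ := a * p.1 + b * p.2 - c

theorem mem_line {a b c : ℝ} {p : ℝ × ℝ} : p ∈ line a b c ↔ F a b c p = 0 := by
  unfold line F
  rw [Set.mem_ofPred_eq, sub_eq_zero]

theorem F_comb (a b c : ℝ) (p q : ℝ × ℝ) (s t : ℝ) (hst : s + t = 1) :
    F a b c (s • p + t • q) = s * F a b c p + t * F a b c q := by
  unfold F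
  simp only [Prod.fst_add, Prod.smul_fst, smul_eq_mul, Prod.snd_add, Prod.smul_snd]
  have : c = (s + t) * c := by rw [hst, one_mul]
  linear_combination (-1 : ℝ) * this

theorem stabs_iff (a b c : ℝ) (p q : ℝ × ℝ) (hpq : p ≠ q) :
    Stabs (line a b c) p q ↔ F a b c p * F a b c q < 0 := by
  constructor
  · rintro ⟨z, hz, hzo⟩
    have hz1 : z ∈ line a b c ∩ segment ℝ p q := by rw [hz]; rfl
    obtain ⟨s, t, hs, ht, hst, rfl⟩ := hzo
    have h0 : F a b c (s • p + t • q) = 0 := mem_line.1 hz1.1
    rw [F_comb a b c p q s t hst] at h0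
    by_contra hcon
    push Not at hcon
    have hp0 : F a b c p = 0 := by
      by_contra hne
      have h1 : 0 < F a b c p * F a b c p := mul_self_pos.2 hne
      have h2 : s * (F a b c p * F a b c p) + t * (F a b c p * F a b c q) = 0 := by
        linear_combination F a b c p * h0
      have h3 := mul_pos hs h1
      have h4 := mul_nonneg ht.le hcon
      linarith
    have hq0 : F a b c q = 0 := by
      rw [hp0, mul_zero, zero_add] at h0
      rcases mul_eq_zero.1 h0 with h | h
      · exact absurd h ht.ne'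
      · exact h
    have hp1 : p ∈ line a b c ∩ segment ℝ p q := ⟨mem_line.2 hp0, left_mem_segment ℝ p q⟩
    have hq1 : q ∈ line a b c ∩ segment ℝ p q := ⟨mem_line.2 hq0, right_mem_segment ℝ p q⟩
    rw [hz] at hp1 hq1
    exact hpq (hp1.trans hq1.symm)
  · intro h
    have key : ∀ u v : ℝ, u * v < 0 → u - v ≠ 0 ∧ 0 < -v / (u - v) ∧ 0 < u / (u - v) := by
      intro u v huv
      rcases lt_trichotomy u 0 with hu | hu | hu
      · have hv : 0 < v := by
          by_contra hv
          push Not at hv
          nlinarith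
        have h1 : u - v < 0 := by linarith
        exact ⟨h1.ne, div_pos_of_neg_of_neg (by linarith) h1, div_pos_of_neg_of_neg hu h1⟩
      · rw [hu, zero_mul] at huv
        exact absurd huv (lt_irrefl _)
      · have hv : v < 0 := by
          by_contra hv
          push Not at hv
          nlinarith
        have h1 : 0 < u - v := by linarith
        exact ⟨h1.ne', div_pos (by linarith) h1, div_pos hu h1⟩
    obtain ⟨hd, h1, h2⟩ := key _ _ h
    set u := F a b c p with hu
    set v := F a b c q with hv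
    have hsum : -v / (u - v) + u / (u - v) = 1 := by
      rw [← add_div]
      have : -v + u = u - v := by ring
      rw [this, div_self hd]
    refine ⟨(-v / (u - v)) • p + (u / (u - v)) • q, ?_, ⟨_, _, h1, h2, hsum, rfl⟩⟩
    ext w
    rw [Set.mem_singleton_iff]
    constructor
    · rintro ⟨hw, s, t, hs, ht, hst, rfl⟩
      have h0 := mem_line.1 hw
      rw [F_comb a b c p q s t hst, ← hu, ← hv] at h0
      have ht' : t = u / (u - v) := by
        rw [eq_div_iff hd]
        have : s = 1 - t := by linarith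
        rw [this] at h0
        linarith
      have hs' : s = -v / (u - v) := by linarith
      rw [ht', hs']
    · rintro rfl
      refine ⟨mem_line.2 ?_, _, _, h1.le, h2.le, hsum, rfl⟩
      rw [F_comb a b c p q _ _ hsum, ← hu, ← hv]
      field_simp
      ring

section Transfer

variable {ι : Type} (pt : ι → ℝ × ℝ) (hpt : Function.Injective pt)

/-- The points of a configuration. -/
noncomputable def eqv : ι ≃ Set.range pt := Equiv.ofInjective pt hpt

end Transfer

/-- The seven points. -/
def pt7 : Fin 7 → ℝ × ℝ :=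
  ![(0, 0), (1, 0), (2, 0), (0, 1), (0, 2), (-1, -1), (-2, -2)]

theorem pt7_inj : Function.Injective pt7 := by
  intro i j h
  fin_cases i <;> fin_cases j <;> simp [pt7] at h ⊢

/-- The six points different from the origin. -/
def pt6 (i : Fin 6) : ℝ × ℝ := pt7 i.succ

theorem pt6_inj : Function.Injective pt6 := by
  intro i j h
  exact Fin.succ_injective _ (pt7_inj h)

/-- Parents of the three-ray tree. -/
def par7 : Fin 7 → Option (Fin 7) :=
  ![none, some 0, some 1, some 0, some 3, some 0, some 5]

/-- Levels of the three-ray tree. -/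
def lvl7 : Fin 7 → ℕ := ![0, 1, 2, 1, 2, 1, 2]

theorem h7 : ∀ x y, par7 x = some y → lvl7 x = lvl7 y + 1 := by decide

/-- The three-ray tree. -/
abbrev T7 : SimpleGraph (Fin 7) := ofPar par7 lvl7 h7

theorem T7_tree : T7.IsTree := isTree 0 (by decide) (by decide)

theorem count7 (a b c : ℝ) :
    (univ.filter fun i : Fin 7 => ∃ j, par7 i = some j ∧
      F a b c (pt7 i) * F a b c (pt7 j) < 0).card ≤ 2 := by
  classical
  rw [Finset.card_filter, Fin.sum_univ_seven]
  have e0 : ¬ ∃ j, par7 0 = some j ∧ F a b c (pt7 0) * F a b c (pt7 j) < 0 := by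
    rintro ⟨j, hj, -⟩
    simp [par7] at hj
  have e1 : (∃ j, par7 1 = some j ∧ F a b c (pt7 1) * F a b c (pt7 j) < 0) ↔
      (a - c) * (-c) < 0 := by
    simp [par7, F, pt7]
  have e2 : (∃ j, par7 2 = some j ∧ F a b c (pt7 2) * F a b c (pt7 j) < 0) ↔
      (2 * a - c) * (a - c) < 0 := by
    simp [par7, F, pt7, mul_comm a 2]
  have e3 : (∃ j, par7 3 = some j ∧ F a b c (pt7 3) * F a b c (pt7 j) < 0) ↔
      (b - c) * (-c) < 0 := by
    simp [par7, F, pt7]
  have e4 : (∃ j, par7 4 = some j ∧ F a b c (pt7 4) * F a b c (pt7 j) < 0) ↔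
      (2 * b - c) * (b - c) < 0 := by
    simp [par7, F, pt7, mul_comm b 2]
  have e5 : (∃ j, par7 5 = some j ∧ F a b c (pt7 5) * F a b c (pt7 j) < 0) ↔
      ((-a - b) - c) * (-c) < 0 := by
    simp [par7, F, pt7, sub_eq_add_neg]
  have e6 : (∃ j, par7 6 = some j ∧ F a b c (pt7 6) * F a b c (pt7 j) < 0) ↔
      (2 * (-a - b) - c) * ((-a - b) - c) < 0 := by
    have : (2 * (-a - b) - c) = (a * (-2) + b * (-2) - c) := by ring
    rw [this]
    simp [par7, F, pt7, sub_eq_add_neg]
  rw [if_neg e0]
  simp only [e1, e2, e3, e4, e5, e6]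
  have ray : ∀ g : ℝ, ((if (g - c) * (-c) < 0 then 1 else 0) +
      (if (2 * g - c) * (g - c) < 0 then 1 else 0) : ℕ) ≤ if 0 < c * g then 1 else 0 := by
    intro g
    by_cases h1 : (g - c) * (-c) < 0
    · have h2 : ¬ (2 * g - c) * (g - c) < 0 := by
        intro h2
        nlinarith [mul_self_nonneg (g - c), mul_self_nonneg c, mul_self_nonneg (g)]
      have h3 : 0 < c * g := by nlinarith [mul_self_nonneg c]
      rw [if_pos h1, if_neg h2, if_pos h3]
    · rw [if_neg h1, zero_add]
      by_cases h2 : (2 * g - c) * (g - c) < 0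
      · have h3 : 0 < c * g := by nlinarith [mul_self_nonneg c, mul_self_nonneg g]
        rw [if_pos h2, if_pos h3]
      · rw [if_neg h2]
        exact Nat.zero_le _
  have r1 := ray a
  have r2 := ray b
  have r3 := ray (-a - b)
  have hall : ((if 0 < c * a then 1 else 0) + (if 0 < c * b then 1 else 0) +
      (if 0 < c * (-a - b) then 1 else 0) : ℕ) ≤ 2 := by
    by_cases h1 : 0 < c * a
    · by_cases h2 : 0 < c * b
      · have h3 : ¬ 0 < c * (-a - b) := by
          intro h3
          nlinarith
        rw [if_pos h1, if_pos h2, if_neg h3]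
      · rw [if_neg h2]
        split_ifs <;> omega
    · rw [if_neg h1]
      split_ifs <;> omega
  omega

/-- The tree stabbing number of the seven points is at most 2. -/
theorem upper : treeStab (Set.range pt7) ≤ 2 := by
  classical
  set e := eqv pt7 pt7_inj with he
  let T : SimpleGraph (Set.range pt7) := T7.comap e.symm
  have hT : T.IsTree := by
    have iso : T ≃g T7 := SimpleGraph.Iso.comap e.symm T7
    exact iso.isTree_iff.2 T7_tree
  have hk : stabNum T ≤ 2 := by
    unfold stabNum
    apply csSup_le'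
    rintro m ⟨a, b, c, -, rfl⟩
    refine le_trans ?_ (count7 a b c)
    rw [← Set.ncard_coe_finset]
    have hsub : {x ∈ T.edgeSet | StabsEdge (line a b c) x} ⊆
        (fun i : Fin 7 => s(e i, e ((par7 i).getD 0))) ''
          ((univ.filter fun i : Fin 7 => ∃ j, par7 i = some j ∧
            F a b c (pt7 i) * F a b c (pt7 j) < 0 : Finset (Fin 7)) : Set (Fin 7)) := by
      rintro x ⟨hx, p, q, rfl, hs⟩
      have hadj : T7.Adj (e.symm p) (e.symm q) := hx
      have hpq : (p : ℝ × ℝ) ≠ q := fun h => by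
        have : p = q := Subtype.ext h
        subst this
        exact hadj.ne rfl
      rw [stabs_iff a b c _ _ hpq] at hs
      have hp : (p : ℝ × ℝ) = pt7 (e.symm p) := by
        conv_lhs => rw [← e.apply_symm_apply p]
        rfl
      have hq : (q : ℝ × ℝ) = pt7 (e.symm q) := by
        conv_lhs => rw [← e.apply_symm_apply q]
        rfl
      rw [hp, hq] at hs
      rcases hadj with h | h
      · refine ⟨e.symm p, ?_, ?_⟩
        · rw [Finset.mem_coe, Finset.mem_filter]
          exact ⟨Finset.mem_univ _, e.symm q, h, hs⟩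
        · simp only
          rw [h, Option.getD_some, e.apply_symm_apply, e.apply_symm_apply]
      · refine ⟨e.symm q, ?_, ?_⟩
        · rw [Finset.mem_coe, Finset.mem_filter]
          exact ⟨Finset.mem_univ _, e.symm p, h, by rw [mul_comm]; exact hs⟩
        · simp only
          rw [h, Option.getD_some, e.apply_symm_apply, e.apply_symm_apply, Sym2.eq_swap]
    exact (Set.ncard_le_ncard hsub (Set.toFinite _)).trans (Set.ncard_image_le (Set.toFinite _))
  have hmem : stabNum T ∈ {k | ∃ T : SimpleGraph (Set.range pt7), T.IsTree ∧ stabNum T = k} :=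
    ⟨T, hT, rfl⟩
  exact (Nat.sInf_le hmem).trans hk

/-- Nine lines. -/
def ln : Fin 9 → ℤ × ℤ × ℤ :=
  ![(-2, -2, -3), (-2, 4, -3), (-4, 2, 3), (-2, 6, -3), (-2, -4, -3), (-6, 2, 3), (-4, -2, -3),
    (-6, 4, 3), (-4, 6, -3)]

/-- The six points with integer coordinates. -/
def ptz : Fin 6 → ℤ × ℤ := ![(1, 0), (2, 0), (0, 1), (0, 2), (-1, -1), (-2, -2)]

/-- The integer affine function. -/
def Fz (k : Fin 9) (i : Fin 6) : ℤ :=
  (ln k).1 * (ptz i).1 + (ln k).2.1 * (ptz i).2 - (ln k).2.2

theorem F_cast (k : Fin 9) (i : Fin 6) :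
    F ((ln k).1 : ℝ) ((ln k).2.1 : ℝ) ((ln k).2.2 : ℝ) (pt6 i) = (Fz k i : ℝ) := by
  have h : pt6 i = (((ptz i).1 : ℝ), ((ptz i).2 : ℝ)) := by
    fin_cases i <;> simp [pt6, pt7, ptz]
  rw [h]
  unfold F Fz
  push_cast
  rfl

theorem four_cuts : ∀ i j : Fin 6, i ≠ j →
    4 ≤ (univ.filter fun k : Fin 9 => Fz k i * Fz k j < 0).card := by
  decide +kernel

/-- Every tree on the six points has an edge set that some line stabs at least three times. -/
theorem lower : 3 ≤ treeStab (Set.range pt6) := by
  classical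
  set e := eqv pt6 pt6_inj with he
  have : Finite (Set.range pt6) := Set.finite_range pt6
  have hne : {k | ∃ T : SimpleGraph (Set.range pt6), T.IsTree ∧ stabNum T = k}.Nonempty := by
    have : Nonempty (Set.range pt6) := ⟨e 0⟩
    obtain ⟨T, -, hT⟩ := (SimpleGraph.connected_top (V := Set.range pt6)).exists_isTree_le
    exact ⟨_, T, hT, rfl⟩
  obtain ⟨T, hT, hTk⟩ := Nat.sInf_mem hne
  have hgoal : 3 ≤ stabNum T := by
    let G : SimpleGraph (Fin 6) := T.comap e
    have hG : G.IsTree := by
      have iso : G ≃g T := SimpleGraph.Iso.comap e T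
      exact iso.isTree_iff.2 hT
    have hcard : G.edgeFinset.card = 5 := by
      have := hG.card_edgeFinset
      rw [Fintype.card_fin] at this
      omega
    let Cr : Fin 9 → Sym2 (Fin 6) → Prop := fun k x => ∃ i j, x = s(i, j) ∧ Fz k i * Fz k j < 0
    have hCr : ∀ k i j, Cr k s(i, j) ↔ Fz k i * Fz k j < 0 := by
      intro k i j
      constructor
      · rintro ⟨i', j', h, h'⟩
        rcases Sym2.eq_iff.1 h with ⟨h1, h2⟩ | ⟨h1, h2⟩
        · rw [h1, h2]; exact h'
        · rw [h1, h2, mul_comm]; exact h'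
      · intro h
        exact ⟨i, j, rfl, h⟩
    have h4 : ∀ x ∈ G.edgeFinset, 4 ≤ (univ.filter fun k => Cr k x).card := by
      intro x hx
      induction x with
      | h i j =>
        rw [SimpleGraph.mem_edgeFinset, SimpleGraph.mem_edgeSet] at hx
        have := four_cuts i j hx.ne
        simp only [hCr]
        exact this
    have hsum : 20 ≤ ∑ k : Fin 9, (G.edgeFinset.filter fun x => Cr k x).card := by
      simp only [Finset.card_filter]
      rw [Finset.sum_comm]
      calc 20 = ∑ x ∈ G.edgeFinset, 4 := by rw [Finset.sum_const, hcard]; rfl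
        _ ≤ _ := by
          apply Finset.sum_le_sum
          intro x hx
          have := h4 x hx
          rwa [Finset.card_filter] at this
    have hex : ∃ k : Fin 9, 3 ≤ (G.edgeFinset.filter fun x => Cr k x).card := by
      by_contra hcon
      push Not at hcon
      have : ∑ k : Fin 9, (G.edgeFinset.filter fun x => Cr k x).card ≤ ∑ k : Fin 9, 2 :=
        Finset.sum_le_sum fun k _ => Nat.le_of_lt_succ (hcon k)
      simp only [Finset.sum_const, Finset.card_univ, Fintype.card_fin, smul_eq_mul] at this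
      omega
    obtain ⟨k, hk⟩ := hex
    refine hk.trans ?_
    have hline : ((ln k).1 : ℝ) ≠ 0 ∨ ((ln k).2.1 : ℝ) ≠ 0 := by
      left
      have : ∀ k : Fin 9, (ln k).1 ≠ 0 := by decide
      exact_mod_cast this k
    have hbdd : BddAbove {m | ∃ a b c : ℝ, (a ≠ 0 ∨ b ≠ 0) ∧
        m = {x ∈ T.edgeSet | StabsEdge (line a b c) x}.ncard} := by
      refine ⟨T.edgeSet.ncard, ?_⟩
      rintro m ⟨a, b, c, -, rfl⟩
      exact Set.ncard_le_ncard (Set.sep_subset _ _) (Set.toFinite _)
    refine le_trans ?_ (le_csSup hbdd ⟨((ln k).1 : ℝ), ((ln k).2.1 : ℝ), ((ln k).2.2 : ℝ),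
      hline, rfl⟩)
    rw [← Set.ncard_coe_finset]
    refine Set.ncard_le_ncard_of_injOn (Sym2.map e) ?_ ?_ (Set.toFinite _)
    · intro x hx
      rw [Finset.mem_coe, Finset.mem_filter] at hx
      obtain ⟨hx1, i, j, rfl, hij⟩ := hx
      rw [SimpleGraph.mem_edgeFinset, SimpleGraph.mem_edgeSet] at hx1
      have hadj : T.Adj (e i) (e j) := hx1
      refine ⟨hadj, e i, e j, rfl, ?_⟩
      have hpq : ((e i : Set.range pt6) : ℝ × ℝ) ≠ (e j : Set.range pt6) := by
        intro h
        exact hadj.ne (Subtype.ext h)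
      rw [stabs_iff _ _ _ _ _ hpq]
      have h1 : ((e i : Set.range pt6) : ℝ × ℝ) = pt6 i := rfl
      have h2 : ((e j : Set.range pt6) : ℝ × ℝ) = pt6 j := rfl
      rw [h1, h2, F_cast, F_cast]
      exact_mod_cast hij
    · exact (Sym2.map.injective e.injective).injOn
  unfold treeStab
  rw [← hTk]
  exact hgoal

/-- There are configurations `S' ⊆ S` with `TREE-STAB(S') > TREE-STAB(S)`. -/
theorem result : ∃ S S' : Set (ℝ × ℝ), S.Finite ∧ S'.Nonempty ∧ S' ⊆ S ∧
    treeStab S < treeStab S' := by
  refine ⟨Set.range pt7, Set.range pt6, Set.finite_range _, ⟨pt6 0, 0, rfl⟩, ?_, ?_⟩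
  · rintro p ⟨i, rfl⟩
    exact ⟨i.succ, rfl⟩
  · have h1 := upper
    have h2 := lower
    omega

end Pool.Agent.Results.MP_3f72ec_co.NotMonotone
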